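import Pool.Agent.helper24.CG.Spec

set_option autoImplicit false

namespace Pool.Agent.helper24.CG

open Finset

theorem MUL_cons {α : Type} [DecidableEq α] (b m : ℕ) (S : Finset α) (E : Finset α)
    (H : List (Finset α)) : gain b m S (E :: H) =
      (1 + (b : ℝ) * ((E ∩ S).card : ℝ) / (m : ℝ)) * gain b m S H := by
  unfold gain
  rw [List.map_cons, List.prod_cons]

theorem MUL_nil {α : Type} [DecidableEq α] (b m : ℕ) (S : Finset α) : gain b m S [] = 1 := by
  unfold gain
  rw [List.map_nil, List.prod_nil]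

theorem MUL_fac {α : Type} [DecidableEq α] (b m : ℕ) (S E : Finset α) :
    1 ≤ 1 + (b : ℝ) * ((E ∩ S).card : ℝ) / (m : ℝ) := by
  have : 0 ≤ (b : ℝ) * ((E ∩ S).card : ℝ) / (m : ℝ) := by positivity
  linarith

theorem MUL_one {α : Type} [DecidableEq α] (b m : ℕ) (S : Finset α) (H : List (Finset α)) :
    1 ≤ gain b m S H := by
  induction H with
  | nil => rw [MUL_nil]
  | cons E H ih =>
    rw [MUL_cons]
    exact one_le_mul_of_one_le_of_one_le (MUL_fac b m S E) ih

theorem MUL_facmono {α : Type} [DecidableEq α] (b m : ℕ) (S T E : Finset α) (h : S ⊆ T) :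
    1 + (b : ℝ) * ((E ∩ S).card : ℝ) / (m : ℝ) ≤ 1 + (b : ℝ) * ((E ∩ T).card : ℝ) / (m : ℝ) := by
  have h1 : ((E ∩ S).card : ℝ) ≤ ((E ∩ T).card : ℝ) :=
    Nat.cast_le.2 (Finset.card_le_card (Finset.inter_subset_inter_left h))
  have h2 : (b : ℝ) * ((E ∩ S).card : ℝ) ≤ (b : ℝ) * ((E ∩ T).card : ℝ) :=
    mul_le_mul_of_nonneg_left h1 (Nat.cast_nonneg b)
  have h3 := div_le_div_of_nonneg_right h2 (Nat.cast_nonneg (α := ℝ) m)
  linarith

theorem MUL_mono {α : Type} [DecidableEq α] (b m : ℕ) (S T : Finset α) (H : List (Finset α))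
    (h : S ⊆ T) : gain b m S H ≤ gain b m T H := by
  induction H with
  | nil => rw [MUL_nil, MUL_nil]
  | cons E H ih =>
    rw [MUL_cons, MUL_cons]
    refine mul_le_mul (MUL_facmono b m S T E h) ih (zero_le_one.trans (MUL_one b m S H))
      (zero_le_one.trans (MUL_fac b m T E))

theorem MUL_prodfac {α : Type} [DecidableEq α] (b m p : ℕ) (E : Finset α) (S : Fin p → Finset α)
    (h : ∀ i j, i < j → Disjoint E (S i) ∨ Disjoint E (S j)) :
    ∏ i, (1 + (b : ℝ) * ((E ∩ S i).card : ℝ) / (m : ℝ)) ≤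
      1 + (b : ℝ) * ((E ∩ univ.biUnion S).card : ℝ) / (m : ℝ) := by
  classical
  by_cases hex : ∃ i, ¬ Disjoint E (S i)
  · obtain ⟨i, hi⟩ := hex
    have h1 : ∏ j, (1 + (b : ℝ) * ((E ∩ S j).card : ℝ) / (m : ℝ)) =
        1 + (b : ℝ) * ((E ∩ S i).card : ℝ) / (m : ℝ) := by
      refine Finset.prod_eq_single i (fun j _ hj => ?_) (fun hn => absurd (Finset.mem_univ i) hn)
      have hd : Disjoint E (S j) := by
        rcases lt_or_gt_of_ne hj with hlt | hlt
        · exact (h j i hlt).resolve_right hi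
        · exact (h i j hlt).resolve_left hi
      rw [Finset.disjoint_iff_inter_eq_empty.1 hd, Finset.card_empty, Nat.cast_zero, mul_zero,
        zero_div, add_zero]
    rw [h1]
    exact MUL_facmono b m (S i) (univ.biUnion S) E (Finset.subset_biUnion_of_mem S (Finset.mem_univ i))
  · have h1 : ∏ j, (1 + (b : ℝ) * ((E ∩ S j).card : ℝ) / (m : ℝ)) = 1 := by
      refine Finset.prod_eq_one fun j _ => ?_
      have hd : Disjoint E (S j) := by
        by_contra hn
        exact hex ⟨j, hn⟩
      rw [Finset.disjoint_iff_inter_eq_empty.1 hd, Finset.card_empty, Nat.cast_zero, mul_zero,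
        zero_div, add_zero]
    rw [h1]
    exact MUL_fac b m (univ.biUnion S) E

theorem MUL : MUL_stmt := by
  intro α _ b m
  refine ⟨?_, fun S H => MUL_one b m S H, ?_, fun S T H h => MUL_mono b m S T H h⟩
  · intro p H S
    induction H with
    | nil =>
      intro _
      simp only [MUL_nil, Finset.prod_const_one, le_refl]
    | cons E H ih =>
      intro h
      have h1 := ih fun E' hE' => h E' (List.mem_cons_of_mem E hE')
      have h2 := MUL_prodfac b m p E S (h E List.mem_cons_self)
      simp only [MUL_cons]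
      rw [Finset.prod_mul_distrib]
      refine mul_le_mul h2 h1 ?_ (zero_le_one.trans (MUL_fac b m _ E))
      exact Finset.prod_nonneg fun i _ => zero_le_one.trans (MUL_one b m (S i) H)
  · intro S H₂ H₁
    unfold gain
    rw [List.map_append, List.prod_append]

end Pool.Agent.helper24.CG
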