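import Pool.Agent.helper24.CG.Spec

set_option autoImplicit false

namespace Pool.Agent.helper24.CG

open Finset Filter

theorem QCP_ev (δ K : ℝ) (hδ : 0 < δ) : ∃ N₀ : ℕ, ∀ N : ℕ, N₀ ≤ N →
    1 ≤ Real.log N ∧ Real.log (Real.log N) + K ≤ δ * Real.log N := by
  have ht : Tendsto (fun N : ℕ => Real.log (N : ℝ)) atTop atTop :=
    Real.tendsto_log_atTop.comp tendsto_natCast_atTop_atTop
  have h1 : ∀ᶠ x : ℝ in atTop, ‖Real.log x‖ ≤ δ / 2 * ‖(id x : ℝ)‖ :=
    Real.isLittleO_log_id_atTop.def (half_pos hδ)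
  have h2 : ∀ᶠ x : ℝ in atTop, max 1 (K / (δ / 2)) ≤ x := eventually_ge_atTop _
  have h3 := ht.eventually (h1.and h2)
  obtain ⟨N₀, hN⟩ := eventually_atTop.1 h3
  refine ⟨N₀, fun N h => ?_⟩
  obtain ⟨h4, h5⟩ := hN N h
  have h6 : 1 ≤ Real.log N := (le_max_left _ _).trans h5
  have h7 : K / (δ / 2) ≤ Real.log N := (le_max_right _ _).trans h5
  have h8 : K ≤ δ / 2 * Real.log N := by
    rw [div_le_iff₀ (half_pos hδ)] at h7
    linarith
  rw [id, Real.norm_eq_abs, Real.norm_eq_abs, abs_of_pos (show (0 : ℝ) < Real.log N by linarith)] at h4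
  have h9 := (le_abs_self _).trans h4
  exact ⟨h6, by linarith⟩

theorem QCP_main (lc L mb ε X T : ℝ) (hε : 0 < ε) (hlc : 0 < lc) (hL : 1 ≤ L) (hmb : mb * lc ≤ 1)
    (hX : L ≤ (1 + ε) * X) (hT : 0 ≤ T) : 2 * mb * L ≤ (1 + ε) * (2 * X / lc + T) := by
  have h1 : 2 * mb * L ≤ 2 * L / lc := by
    rw [le_div_iff₀ hlc]
    nlinarith
  have h2 : 2 * L / lc ≤ (1 + ε) * (2 * X / lc) := by
    have e : (1 + ε) * (2 * X / lc) = 2 * ((1 + ε) * X) / lc := by ring
    rw [e]
    exact div_le_div_of_nonneg_right (by linarith) hlc.le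
  have h3 : 0 ≤ (1 + ε) * T := mul_nonneg (by linarith) hT
  nlinarith

theorem QCP : QCP_stmt := by
  intro b m ε hb hbm hε
  have hm : 0 < m := lt_of_le_of_lt (Nat.zero_le b) hbm
  have hmR : (0 : ℝ) < m := Nat.cast_pos.2 hm
  have hbR : (0 : ℝ) < b := Nat.cast_pos.2 hb
  have hbmR : (b : ℝ) < m := Nat.cast_lt.2 hbm
  set c : ℝ := ((m : ℝ) + b) / m with hc
  have hc1 : c = 1 + b / m := by
    rw [hc, add_div, div_self hmR.ne']
  have hbm0 : (0 : ℝ) < b / m := div_pos hbR hmR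
  have hcg : 1 < c := by rw [hc1]; linarith
  have hlc : 0 < Real.log c := Real.log_pos hcg
  have hlc2 : Real.log c ≤ b / m := by
    have := Real.log_le_sub_one_of_pos (show (0 : ℝ) < c by linarith)
    rw [hc1] at this ⊢
    linarith
  have hmb : (m : ℝ) / b * Real.log c ≤ 1 := by
    calc (m : ℝ) / b * Real.log c ≤ (m : ℝ) / b * (b / m) :=
          mul_le_mul_of_nonneg_left hlc2 (div_pos hmR hbR).le
      _ = 1 := by field_simp
  have hT : 0 ≤ 2 * Real.log c / Real.log ((m : ℝ) / ((m : ℝ) - b)) := by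
    refine div_nonneg (by linarith) (Real.log_nonneg ?_)
    rw [le_div_iff₀ (by linarith)]
    linarith
  have hδ : 0 < ε / (1 + ε) := div_pos hε (by linarith)
  obtain ⟨N₀, hN₀⟩ := QCP_ev (ε / (1 + ε)) (Real.log 2 - Real.log (Real.log c) + Real.log c / 2 - 1) hδ
  refine ⟨N₀, fun N hN => ?_⟩
  obtain ⟨hL, hK⟩ := hN₀ N hN
  set L : ℝ := Real.log N with hLdef
  have hNpos : (0 : ℝ) < N := by
    rcases Nat.eq_zero_or_pos N with h | h
    · rw [h, Nat.cast_zero, Real.log_zero] at hLdef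
      linarith
    · exact Nat.cast_pos.2 h
  have hLpos : 0 < L := by linarith
  have hlogb : Real.logb c N = L / Real.log c := rfl
  have hd : 0 < 2 * (L / Real.log c) := by positivity
  have e1 : Real.logb c (Real.exp 1 * N / (2 * Real.logb c N)) =
      (1 + L - (Real.log 2 + (Real.log L - Real.log (Real.log c)))) / Real.log c := by
    rw [hlogb]
    show Real.log _ / Real.log c = _
    congr 1
    rw [Real.log_div (mul_ne_zero (Real.exp_pos 1).ne' hNpos.ne') hd.ne',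
      Real.log_mul (Real.exp_pos 1).ne' hNpos.ne', Real.log_exp,
      Real.log_mul (by norm_num) (div_pos hLpos hlc).ne', Real.log_div hLpos.ne' hlc.ne']
  have e2 : QQ N m b = 2 * (1 + L - (Real.log 2 + (Real.log L - Real.log (Real.log c))) -
      Real.log c / 2) / Real.log c + 2 * Real.log c / Real.log ((m : ℝ) / ((m : ℝ) - b)) := by
    have : QQ N m b = 2 * Real.logb c (Real.exp 1 * N / (2 * Real.logb c N)) - 1 +
        2 * Real.log c / Real.log ((m : ℝ) / ((m : ℝ) - b)) := rfl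
    rw [this, e1]
    field_simp
  rw [e2]
  have e3 : 2 * (m : ℝ) / b * L = 2 * ((m : ℝ) / b) * L := by ring
  rw [e3]
  refine QCP_main _ _ _ _ _ _ hε hlc hL hmb ?_ hT
  have h1 : (0 : ℝ) < 1 + ε := by linarith
  have h2 : (1 + ε) * (ε / (1 + ε) * L) = ε * L := by field_simp
  have h3 := mul_le_mul_of_nonneg_left hK h1.le
  rw [h2] at h3
  nlinarith

end Pool.Agent.helper24.CG
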